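import Pool.Agent.Helper14_DK.Stmts

/-!
# MP_d7b937_an: module PC2

A strictly plurisubharmonic exhaustion of `{|z - p| < h, φ < 0}`.
-/

set_option autoImplicit false

namespace Pool.Agent.DK.H4

open MeasureTheory Complex Set Metric Filter
open scoped ContDiff Topology

variable {n : ℕ}

theorem contDiff_nsq (p : E n) : ContDiff ℝ ∞ (fun z : E n => nsq (z - p)) := by
  unfold nsq
  refine ContDiff.sum fun j _ => ?_
  have h : ContDiff ℝ ∞ (fun z : E n => (z - p) j) := by
    have h1 : ContDiff ℝ ∞ (fun z : E n => z j) := contDiff_apply ℝ ℂ j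
    exact h1.sub contDiff_const
  exact h.norm_sq ℝ

theorem nsq_nonneg (w : E n) : 0 ≤ nsq w := Finset.sum_nonneg fun _ _ => by positivity

theorem norm_sq_le_nsq (w : E n) : ‖w‖ ^ 2 ≤ nsq w := by
  have h1 : ‖w‖ ≤ Real.sqrt (nsq w) := by
    rw [pi_norm_le_iff_of_nonneg (Real.sqrt_nonneg _)]
    intro j
    apply Real.le_sqrt_of_sq_le
    exact Finset.single_le_sum (f := fun j => ‖w j‖ ^ 2) (fun _ _ => by positivity)
      (Finset.mem_univ j)
  calc ‖w‖ ^ 2 ≤ Real.sqrt (nsq w) ^ 2 := by gcongr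
    _ = nsq w := Real.sq_sqrt (nsq_nonneg w)

theorem nsq_pos {w : E n} (hw : w ≠ 0) : 0 < nsq w := by
  have h1 : 0 < ‖w‖ := norm_pos_iff.mpr hw
  have h2 := norm_sq_le_nsq w
  have h3 : 0 < ‖w‖ ^ 2 := by positivity
  linarith

theorem Lv_ge (f : E n → ℝ) (z w : E n) :
    -(‖iteratedFDeriv ℝ 2 f z‖ * nsq w) ≤ Lv f z w := by
  have h1 := (iteratedFDeriv ℝ 2 f z).le_opNorm ![w, w]
  have h2 := (iteratedFDeriv ℝ 2 f z).le_opNorm ![Complex.I • w, Complex.I • w]
  have e1 : ∏ i : Fin 2, ‖(![w, w] : Fin 2 → E n) i‖ = ‖w‖ ^ 2 := by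
    simp [Fin.prod_univ_two, sq]
  have e2 : ∏ i : Fin 2, ‖(![Complex.I • w, Complex.I • w] : Fin 2 → E n) i‖ = ‖w‖ ^ 2 := by
    simp [Fin.prod_univ_two, sq, norm_smul]
  rw [e1] at h1
  rw [e2] at h2
  have h3 := neg_le_of_abs_le (Real.norm_eq_abs _ ▸ h1)
  have h4 := neg_le_of_abs_le (Real.norm_eq_abs _ ▸ h2)
  have h5 : ‖iteratedFDeriv ℝ 2 f z‖ * ‖w‖ ^ 2 ≤ ‖iteratedFDeriv ℝ 2 f z‖ * nsq w :=
    mul_le_mul_of_nonneg_left (norm_sq_le_nsq w) (norm_nonneg _)
  have h6 : 0 ≤ ‖iteratedFDeriv ℝ 2 f z‖ * nsq w := mul_nonneg (norm_nonneg _) (nsq_nonneg w)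
  unfold Lv
  linarith

/-- `u ↦ - log (u - b)` -/
noncomputable def lg (b u : ℝ) : ℝ := - Real.log (u - b)

theorem deriv_lg (b : ℝ) : deriv (lg b) = fun u => - (u - b)⁻¹ := by
  funext u
  unfold lg
  rw [deriv.fun_neg, deriv_comp_sub_const (f := Real.log), Real.deriv_log]

theorem deriv2_lg {b u : ℝ} (hu : u ≠ b) : deriv (deriv (lg b)) u = ((u - b) ^ 2)⁻¹ := by
  rw [deriv_lg]
  have h : u - b ≠ 0 := sub_ne_zero.mpr hu
  have h1 : HasDerivAt (fun u => u - b) 1 u := (hasDerivAt_id u).sub_const b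
  have h2 := (h1.inv h).neg
  have h3 := h2.deriv
  have e : (fun u => -(u - b)⁻¹) = -(fun u => u - b)⁻¹ := rfl
  rw [e, h3]
  field_simp

theorem contDiffAt_lg {b u : ℝ} (hu : u ≠ b) : ContDiffAt ℝ ∞ (lg b) u := by
  have h : u - b ≠ 0 := sub_ne_zero.mpr hu
  unfold lg
  exact ((contDiffAt_id.sub contDiffAt_const).log h).neg

/-- the elementary inequality -/
theorem elem {x y W c C : ℝ} (hx : 0 < x) (hC : 0 < C) (hxc : x ≤ c / C ^ 2) :
    0 ≤ x⁻¹ * (c * W ^ 2 - C * y * W) + (x ^ 2)⁻¹ * y ^ 2 := by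
  have h1 : x⁻¹ * (c * W ^ 2 - C * y * W) + (x ^ 2)⁻¹ * y ^ 2 =
      (x ^ 2)⁻¹ * (x * c * W ^ 2 - x * C * y * W + y ^ 2) := by
    field_simp
  rw [h1]
  apply mul_nonneg (by positivity)
  have h2 : x * C ^ 2 ≤ c := by
    rwa [le_div_iff₀ (by positivity)] at hxc
  have h3 : (x * C) ^ 2 * W ^ 2 ≤ x * c * W ^ 2 := by
    have : (x * C) ^ 2 ≤ x * c := by
      calc (x * C) ^ 2 = x * (x * C ^ 2) := by ring
        _ ≤ x * c := mul_le_mul_of_nonneg_left h2 hx.le
    exact mul_le_mul_of_nonneg_right this (sq_nonneg W)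
  nlinarith [sq_nonneg (y - x * C * W), sq_nonneg y, sq_nonneg (x * C * W),
    sq_nonneg (y + x * C * W)]

/-- PC2 -/
theorem pc2 (hLc : LcStmt) : Pc2Stmt := by
  intro n φ p h m c C hφ hh hm hc hC hyp
  obtain ⟨hadd, hmul, hcomp, hnsq, -, -⟩ := hLc n
  -- the compact ball
  set B : Set (E n) := {z | nsq (z - p) ≤ h ^ 2} with hBdef
  have hqc : Continuous (fun z : E n => nsq (z - p)) := (contDiff_nsq p).continuous
  have hBc : IsClosed B := isClosed_le hqc continuous_const
  have hBb : B ⊆ closedBall p h := by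
    intro z hz
    rw [mem_closedBall, dist_eq_norm]
    have h1 := norm_sq_le_nsq (z - p)
    have h2 : ‖z - p‖ ^ 2 ≤ h ^ 2 := h1.trans hz
    exact (abs_le_of_sq_le_sq' h2 hh.le).2
  have hB : IsCompact B := (isCompact_closedBall p h).of_isClosed_subset hBc hBb
  have hφc : Continuous φ := hφ.continuous
  have hD2 : Continuous (iteratedFDeriv ℝ 2 φ) :=
    hφ.continuous_iteratedFDeriv (m := 2) (WithTop.coe_le_coe.2 le_top)
  obtain ⟨M, hM⟩ := hB.exists_bound_of_continuousOn hD2.continuousOn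
  obtain ⟨M1, hM1⟩ := hB.exists_bound_of_continuousOn hφc.continuousOn
  set m' : ℝ := min m (c / C ^ 2) with hm'
  have hm'0 : 0 < m' := lt_min hm (by positivity)
  set A : ℝ := |M| / m' + 1 with hA
  have hA0 : 0 < A := by positivity
  set D : Set (E n) := {z | nsq (z - p) < h ^ 2 ∧ φ z < 0} with hDdef
  have hDo : IsOpen D := (isOpen_lt hqc continuous_const).inter (isOpen_lt hφc continuous_const)
  set s : E n → ℝ := fun z => (lg 0 (φ z) + lg (h ^ 2) (nsq (z - p))) + A * nsq (z - 0) with hs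
  have hcd0 : ∀ z ∈ D, ContDiffAt ℝ ∞ (fun z => lg 0 (φ z)) z := fun z hz =>
    ContDiffAt.comp (g := lg 0) (f := φ) z
      (contDiffAt_lg (b := 0) (u := φ z) (ne_of_lt hz.2)) hφ.contDiffAt
  have hcd1 : ∀ z ∈ D, ContDiffAt ℝ ∞ (fun z => lg (h ^ 2) (nsq (z - p))) z := fun z hz =>
    ContDiffAt.comp (g := lg (h ^ 2)) (f := fun z => nsq (z - p)) z
      (contDiffAt_lg (b := h ^ 2) (u := nsq (z - p)) (ne_of_lt hz.1))
      (contDiff_nsq p).contDiffAt
  have hcd2 : ∀ z : E n, ContDiffAt ℝ ∞ (fun z : E n => A * nsq (z - 0)) z := fun z =>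
    (contDiffAt_const (c := A)).mul (contDiff_nsq (0 : E n)).contDiffAt
  have htwo : (2 : WithTop ℕ∞) ≤ ∞ := WithTop.coe_le_coe.2 le_top
  have hcs : ContDiffOn ℝ ∞ s D := fun z hz =>
    (((hcd0 z hz).add (hcd1 z hz)).add (hcd2 z)).contDiffWithinAt
  refine ⟨s, hDo, hcs, ?_, ?_⟩
  · intro z hz w hw
    have hwp := nsq_pos hw
    have e1 := (hadd (fun z => lg 0 (φ z) + lg (h ^ 2) (nsq (z - p))) (fun z => A * nsq (z - 0))
      z w (((hcd0 z hz).add (hcd1 z hz)).of_le htwo) ((hcd2 z).of_le htwo)).1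
    have e2 := (hadd (fun z => lg 0 (φ z)) (fun z => lg (h ^ 2) (nsq (z - p)))
      z w ((hcd0 z hz).of_le htwo) ((hcd1 z hz).of_le htwo)).1
    have e3 := (hmul A (fun z => nsq (z - 0)) z w ((contDiff_nsq 0).contDiffAt.of_le htwo)).1
    have e4 := (hnsq 0 z w).1
    have e5 := (hcomp (lg 0) φ z w (hφ.contDiffAt.of_le htwo)
      ((contDiffAt_lg (b := 0) (u := φ z) (ne_of_lt hz.2)).of_le htwo)).1
    have e6 := (hcomp (lg (h ^ 2)) (fun z => nsq (z - p)) z w
      ((contDiff_nsq p).contDiffAt.of_le htwo)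
      ((contDiffAt_lg (b := h ^ 2) (u := nsq (z - p)) (ne_of_lt hz.1)).of_le htwo)).1
    have e7 := (hnsq p z w).1
    rw [deriv2_lg (ne_of_lt hz.2), deriv_lg] at e5
    rw [deriv2_lg (ne_of_lt hz.1), deriv_lg, e7] at e6
    rw [hs, e1, e2, e3, e4, e5, e6]
    -- the second term is nonnegative
    have g1 : 0 ≤ -(nsq (z - p) - h ^ 2)⁻¹ * nsq w +
        ((nsq (z - p) - h ^ 2) ^ 2)⁻¹ * ‖dl (fun z => nsq (z - p)) z w‖ ^ 2 := by
      have h1 : 0 < h ^ 2 - nsq (z - p) := by
        have := hz.1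
        linarith
      have h2 : -(nsq (z - p) - h ^ 2)⁻¹ = (h ^ 2 - nsq (z - p))⁻¹ := by
        rw [← inv_neg, neg_sub]
      rw [h2]
      positivity
    -- the first term
    have hx : 0 < - φ z := by
      have := hz.2
      linarith
    have g2 : -(|M| / m' * nsq w) ≤ -(φ z - 0)⁻¹ * Lv φ z w +
        ((φ z - 0) ^ 2)⁻¹ * ‖dl φ z w‖ ^ 2 := by
      have h2 : -(φ z - 0)⁻¹ = (-φ z)⁻¹ := by
        rw [sub_zero, ← inv_neg]
      have h3 : (φ z - 0) ^ 2 = (-φ z) ^ 2 := by ring
      rw [h2, h3]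
      by_cases hcase : -m' ≤ φ z
      · have h4 := hyp z hz.1.le ((neg_le_neg (min_le_left _ _)).trans hcase) hz.2.le w
        have h5 : -φ z ≤ c / C ^ 2 := by
          have := min_le_right m (c / C ^ 2)
          linarith
        have h6 := elem (x := -φ z) (y := ‖dl φ z w‖) (W := Real.sqrt (nsq w)) hx hC h5
        rw [Real.sq_sqrt hwp.le] at h6
        have h7 : (-φ z)⁻¹ * (c * nsq w - C * ‖dl φ z w‖ * Real.sqrt (nsq w)) ≤
            (-φ z)⁻¹ * Lv φ z w := mul_le_mul_of_nonneg_left h4 (inv_nonneg.mpr hx.le)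
        have h8 : 0 ≤ |M| / m' * nsq w := by positivity
        linarith
      · have h4 : m' ≤ -φ z := by
          push Not at hcase
          linarith
        have h5 := Lv_ge φ z w
        have h6 : ‖iteratedFDeriv ℝ 2 φ z‖ ≤ |M| := (hM z hz.1.le).trans (le_abs_self M)
        have h7 : -(|M| * nsq w) ≤ Lv φ z w := by
          have := mul_le_mul_of_nonneg_right h6 hwp.le
          linarith
        have h8 : (-φ z)⁻¹ * -(|M| * nsq w) ≤ (-φ z)⁻¹ * Lv φ z w :=
          mul_le_mul_of_nonneg_left h7 (inv_nonneg.mpr hx.le)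
        have h9 : (-φ z)⁻¹ * (|M| * nsq w) ≤ m'⁻¹ * (|M| * nsq w) :=
          mul_le_mul_of_nonneg_right (inv_anti₀ hm'0 h4) (by positivity)
        have h10 : 0 ≤ ((-φ z) ^ 2)⁻¹ * ‖dl φ z w‖ ^ 2 := by positivity
        have h11 : |M| / m' * nsq w = m'⁻¹ * (|M| * nsq w) := by
          rw [div_eq_mul_inv]
          ring
        rw [h11]
        linarith
    have g3 : A * nsq w = |M| / m' * nsq w + nsq w := by
      rw [hA]
      ring
    rw [g3]
    linarith
  · intro c0
    -- sublevel sets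
    set ε1 : ℝ := Real.exp (-(c0 + Real.log (h ^ 2))) with hε1
    set ε2 : ℝ := Real.exp (-(c0 + Real.log (|M1| + 1))) with hε2
    have hε10 : 0 < ε1 := Real.exp_pos _
    have hε20 : 0 < ε2 := Real.exp_pos _
    set K : Set (E n) := B ∩ ({z | φ z ≤ -ε1} ∩ {z | nsq (z - p) ≤ h ^ 2 - ε2}) with hK
    have hKc : IsCompact K := hB.inter_right ((isClosed_le hφc continuous_const).inter
      (isClosed_le hqc continuous_const))
    have hKD : K ⊆ D := by
      rintro z ⟨-, h1, h2⟩
      simp only [Set.mem_ofPred_eq] at h1 h2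
      exact ⟨by linarith, by linarith⟩
    have hsub : {z | z ∈ D ∧ s z ≤ c0} = K ∩ s ⁻¹' (Set.Iic c0) := by
      ext z
      constructor
      · rintro ⟨hz, hsz⟩
        refine ⟨⟨hz.1.le, ?_, ?_⟩, hsz⟩
        · show φ z ≤ -ε1
          have hx : 0 < -φ z := by
            have := hz.2
            linarith
          have hy : 0 < h ^ 2 - nsq (z - p) := by
            have := hz.1
            linarith
          have e1 : lg 0 (φ z) = - Real.log (-φ z) := by
            unfold lg
            rw [sub_zero, Real.log_neg_eq_log]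
          have e2 : lg (h ^ 2) (nsq (z - p)) = - Real.log (h ^ 2 - nsq (z - p)) := by
            unfold lg
            rw [← Real.log_neg_eq_log, neg_sub]
          have e3 : s z = - Real.log (-φ z) + - Real.log (h ^ 2 - nsq (z - p)) +
            A * nsq (z - 0) := by rw [hs]; simp only [e1, e2]
          have h1 : 0 ≤ A * nsq (z - 0) := mul_nonneg hA0.le (nsq_nonneg _)
          have h2 : Real.log (h ^ 2 - nsq (z - p)) ≤ Real.log (h ^ 2) := by
            apply Real.log_le_log hy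
            have := nsq_nonneg (z - p)
            linarith
          have h3 : -(c0 + Real.log (h ^ 2)) ≤ Real.log (-φ z) := by
            rw [e3] at hsz
            linarith
          have h4 := (Real.le_log_iff_exp_le hx).mp h3
          linarith
        · show nsq (z - p) ≤ h ^ 2 - ε2
          have hx : 0 < -φ z := by
            have := hz.2
            linarith
          have hy : 0 < h ^ 2 - nsq (z - p) := by
            have := hz.1
            linarith
          have e1 : lg 0 (φ z) = - Real.log (-φ z) := by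
            unfold lg
            rw [sub_zero, Real.log_neg_eq_log]
          have e2 : lg (h ^ 2) (nsq (z - p)) = - Real.log (h ^ 2 - nsq (z - p)) := by
            unfold lg
            rw [← Real.log_neg_eq_log, neg_sub]
          have e3 : s z = - Real.log (-φ z) + - Real.log (h ^ 2 - nsq (z - p)) +
            A * nsq (z - 0) := by rw [hs]; simp only [e1, e2]
          have h1 : 0 ≤ A * nsq (z - 0) := mul_nonneg hA0.le (nsq_nonneg _)
          have h2 : Real.log (-φ z) ≤ Real.log (|M1| + 1) := by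
            apply Real.log_le_log hx
            have h5 := hM1 z hz.1.le
            rw [Real.norm_eq_abs] at h5
            have h6 := neg_abs_le (φ z)
            have h7 := le_abs_self M1
            linarith
          have h3 : -(c0 + Real.log (|M1| + 1)) ≤ Real.log (h ^ 2 - nsq (z - p)) := by
            rw [e3] at hsz
            linarith
          have h4 := (Real.le_log_iff_exp_le hy).mp h3
          linarith
      · rintro ⟨hz, hsz⟩
        exact ⟨hKD hz, hsz⟩
    rw [hsub]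
    have hcl : IsClosed (K ∩ s ⁻¹' (Set.Iic c0)) :=
      (hcs.continuousOn.mono hKD).preimage_isClosed_of_isClosed hKc.isClosed isClosed_Iic
    exact hKc.of_isClosed_subset hcl Set.inter_subset_left

end Pool.Agent.DK.H4
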