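import Pool.Agent.Helper14_DK.Stmts

/-!
# MP_d7b937_an: module POU, partitions of unity at scale `h`
-/

set_option autoImplicit false

namespace Pool.Agent.DK.H4P

open MeasureTheory Complex Set Metric Filter
open scoped ContDiff Topology

/-- the bump -/
noncomputable def bt (x : ℝ) : ℝ := Real.smoothTransition (x + 1) - Real.smoothTransition x

theorem bt_nonneg (x : ℝ) : 0 ≤ bt x := by
  unfold bt
  by_cases h : x ≤ 0
  · rw [Real.smoothTransition.zero_of_nonpos h, sub_zero]
    exact Real.smoothTransition.nonneg _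
  · rw [Real.smoothTransition.one_of_one_le (x := x + 1) (by linarith)]
    linarith [Real.smoothTransition.le_one x]

theorem bt_le_one (x : ℝ) : bt x ≤ 1 := by
  unfold bt
  linarith [Real.smoothTransition.le_one (x + 1), Real.smoothTransition.nonneg x]

theorem bt_zero {x : ℝ} (h : 1 ≤ |x|) : bt x = 0 := by
  unfold bt
  rcases le_abs.mp h with h | h
  · rw [Real.smoothTransition.one_of_one_le h,
      Real.smoothTransition.one_of_one_le (x := x + 1) (by linarith), sub_self]
  · rw [Real.smoothTransition.zero_of_nonpos (x := x) (by linarith),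
      Real.smoothTransition.zero_of_nonpos (x := x + 1) (by linarith), sub_self]

theorem bt_smooth : ContDiff ℝ ∞ bt := by
  unfold bt
  exact (Real.smoothTransition.contDiff.comp (contDiff_id.add contDiff_const)).sub
    Real.smoothTransition.contDiff

theorem bt_deriv_bdd : ∃ B : ℝ, 0 ≤ B ∧ ∀ x, |deriv bt x| ≤ B := by
  have hc : HasCompactSupport bt := by
    apply HasCompactSupport.intro (K := Icc (-1) 1) isCompact_Icc
    intro x hx
    apply bt_zero
    by_contra h
    push Not at h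
    exact hx ⟨(abs_lt.mp h).1.le, (abs_lt.mp h).2.le⟩
  have hd : Continuous (deriv bt) := bt_smooth.continuous_deriv (by simp)
  obtain ⟨B, hB⟩ := hd.bounded_above_of_compact_support hc.deriv
  exact ⟨|B|, abs_nonneg _, fun x => ((Real.norm_eq_abs _) ▸ hB x).trans (le_abs_self B)⟩

theorem bt_sum (M : ℕ) (x : ℝ) (hx : |x| ≤ M) :
    ∑ m : Fin (2 * M + 1), bt (x + M - (m : ℕ)) = 1 := by
  rw [Fin.sum_univ_eq_sum_range (fun m => bt (x + M - (m : ℕ))) (2 * M + 1)]
  have h : ∀ m : ℕ, bt (x + M - (m : ℕ)) = Real.smoothTransition (x + M + 1 - (m : ℕ)) -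
      Real.smoothTransition (x + M + 1 - ((m + 1 : ℕ) : ℝ)) := by
    intro m
    unfold bt
    congr 2
    · ring
    · push_cast
      ring
  simp only [h]
  rw [Finset.sum_range_sub' (fun m : ℕ => Real.smoothTransition (x + M + 1 - (m : ℕ)))]
  have h1 := (abs_le.mp hx).1
  have h2 := (abs_le.mp hx).2
  rw [Real.smoothTransition.one_of_one_le, Real.smoothTransition.zero_of_nonpos, sub_zero]
  · push_cast
    linarith
  · push_cast
    linarith

/-! ## real coordinates -/

/-- real coordinates -/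
noncomputable def cA {n : ℕ} (a : Fin n × Bool) (z : E n) : ℝ :=
  if a.2 then (z a.1).im else (z a.1).re

/-- the coordinate directions -/
noncomputable def vA {n : ℕ} (a : Fin n × Bool) : E n :=
  Pi.single a.1 (if a.2 then Complex.I else 1)

theorem cA_line {n : ℕ} (a b : Fin n × Bool) (z : E n) (t : ℝ) :
    cA a (z + t • vA b) = cA a z + (if a = b then t else 0) := by
  obtain ⟨i, x⟩ := a
  obtain ⟨j, y⟩ := b
  unfold cA vA
  by_cases hij : i = j
  · subst hij
    cases x <;> cases y <;> simp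
  · have : (Pi.single j (if y = true then Complex.I else 1) : E n) i = 0 :=
      Pi.single_eq_of_ne hij _
    have h2 : ¬ ((i, x) = (j, y)) := fun h => hij (congrArg Prod.fst h)
    rw [if_neg h2]
    cases x <;> simp [this]

theorem contDiff_cA {n : ℕ} (a : Fin n × Bool) : ContDiff ℝ ∞ (cA a : E n → ℝ) := by
  obtain ⟨i, x⟩ := a
  have h1 : ContDiff ℝ ∞ (fun z : E n => z i) := contDiff_apply ℝ ℂ i
  cases x
  · exact Complex.reCLM.contDiff.comp h1
  · exact Complex.imCLM.contDiff.comp h1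

theorem abs_cA_le {n : ℕ} (a : Fin n × Bool) (z : E n) : |cA a z| ≤ ‖z‖ := by
  obtain ⟨i, x⟩ := a
  have h1 : ‖z i‖ ≤ ‖z‖ := norm_le_pi_norm z i
  cases x
  · exact (Complex.abs_re_le_norm _).trans h1
  · exact (Complex.abs_im_le_norm _).trans h1

/-- lattice point -/
noncomputable def pK {n : ℕ} (e : ℝ) (M : ℕ) (k : Fin n × Bool → Fin (2 * M + 1)) : E n :=
  fun j => ⟨e * ((k (j, false) : ℕ) - M), e * ((k (j, true) : ℕ) - M)⟩

theorem cA_sub_pK {n : ℕ} (e : ℝ) (M : ℕ) (k : Fin n × Bool → Fin (2 * M + 1)) (z : E n)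
    (a : Fin n × Bool) : cA a (z - pK e M k) = cA a z - e * ((k a : ℕ) - M) := by
  obtain ⟨i, x⟩ := a
  cases x <;> simp [cA, pK]

theorem nsq_eq {n : ℕ} (w : E n) : nsq w = ∑ a : Fin n × Bool, cA a w ^ 2 := by
  unfold nsq
  rw [Fintype.sum_prod_type]
  refine Finset.sum_congr rfl fun j _ => ?_
  rw [Fintype.sum_bool]
  simp only [cA]
  rw [← Complex.normSq_eq_norm_sq, Complex.normSq_apply]
  simp
  ring

/-- the functions -/
noncomputable def ch {n : ℕ} (e : ℝ) (M : ℕ) (k : Fin n × Bool → Fin (2 * M + 1)) (z : E n) :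
    ℝ := ∏ a, bt (cA a z / e + M - (k a : ℕ))

theorem ch_smooth {n : ℕ} (e : ℝ) (M : ℕ) (k : Fin n × Bool → Fin (2 * M + 1)) :
    ContDiff ℝ ∞ (ch e M k : E n → ℝ) := by
  unfold ch
  refine contDiff_prod fun a _ => ?_
  exact bt_smooth.comp ((((contDiff_cA a).div_const e).add contDiff_const).sub contDiff_const)

theorem ch_nonneg {n : ℕ} (e : ℝ) (M : ℕ) (k : Fin n × Bool → Fin (2 * M + 1)) (z : E n) :
    0 ≤ ch e M k z := Finset.prod_nonneg fun _ _ => bt_nonneg _

theorem ch_le_one {n : ℕ} (e : ℝ) (M : ℕ) (k : Fin n × Bool → Fin (2 * M + 1)) (z : E n) :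
    ch e M k z ≤ 1 := Finset.prod_le_one (fun _ _ => bt_nonneg _) fun _ _ => bt_le_one _

theorem ch_sum {n : ℕ} {e : ℝ} (he : 0 < e) (M : ℕ) (z : E n) (hz : ‖z‖ / e ≤ M) :
    ∑ k : Fin n × Bool → Fin (2 * M + 1), ch e M k z = 1 := by
  have h1 : ∏ a : Fin n × Bool, ∑ m : Fin (2 * M + 1), bt (cA a z / e + M - (m : ℕ)) =
      ∑ k : Fin n × Bool → Fin (2 * M + 1), ch e M k z := by
    rw [Finset.prod_univ_sum, Fintype.piFinset_univ]
    rfl
  rw [← h1]
  refine Finset.prod_eq_one fun a _ => bt_sum M _ ?_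
  rw [abs_div, abs_of_pos he]
  exact (div_le_div_of_nonneg_right (abs_cA_le a z) he.le).trans hz

theorem ch_supp {n : ℕ} {e : ℝ} (he : 0 < e) (M : ℕ) (k : Fin n × Bool → Fin (2 * M + 1)) :
    tsupport (ch e M k) ⊆ {z : E n | nsq (z - pK e M k) ≤ 2 * n * e ^ 2} := by
  have hcont : Continuous (fun z : E n => nsq (z - pK e M k)) := by
    unfold nsq
    fun_prop
  apply closure_minimal _ (isClosed_le hcont continuous_const)
  intro z hz
  show nsq (z - pK e M k) ≤ 2 * n * e ^ 2
  rw [nsq_eq]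
  have h1 : ∀ a : Fin n × Bool, cA a (z - pK e M k) ^ 2 ≤ e ^ 2 := by
    intro a
    have h2 : bt (cA a z / e + M - (k a : ℕ)) ≠ 0 := by
      intro h0
      exact hz (Finset.prod_eq_zero (Finset.mem_univ a) h0)
    have h3 : |cA a z / e + M - (k a : ℕ)| ≤ 1 := by
      by_contra hcon
      push Not at hcon
      exact h2 (bt_zero hcon.le)
    rw [cA_sub_pK]
    have h4 : cA a z - e * ((k a : ℕ) - M) = e * (cA a z / e + M - (k a : ℕ)) := by
      field_simp
      ring
    rw [h4, mul_pow, ← sq_abs (cA a z / e + M - (k a : ℕ))]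
    have h5 : |cA a z / e + M - (k a : ℕ)| ^ 2 ≤ 1 := pow_le_one₀ (abs_nonneg _) h3
    have h6 : 0 ≤ e ^ 2 := sq_nonneg e
    calc _ ≤ e ^ 2 * 1 := mul_le_mul_of_nonneg_left h5 h6
      _ = e ^ 2 := mul_one _
  calc _ ≤ ∑ a : Fin n × Bool, e ^ 2 := Finset.sum_le_sum fun a _ => h1 a
    _ = 2 * n * e ^ 2 := by
      rw [Finset.sum_const, Finset.card_univ, Fintype.card_prod, Fintype.card_fin,
        Fintype.card_bool, nsmul_eq_mul]
      push_cast
      ring

theorem ch_fderiv {n : ℕ} {e B : ℝ} (he : 0 < e) (hB : ∀ x, |deriv bt x| ≤ B) (hB0 : 0 ≤ B)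
    (M : ℕ) (k : Fin n × Bool → Fin (2 * M + 1)) (z : E n) (b : Fin n × Bool) :
    |fderiv ℝ (ch e M k) z (vA b)| ≤ B / e := by
  classical
  set P : ℝ := ∏ a ∈ Finset.univ.erase b, bt (cA a z / e + M - (k a : ℕ)) with hP
  have hline : ∀ t : ℝ, ch e M k (z + t • vA b) =
      bt ((cA b z + t) / e + M - (k b : ℕ)) * P := by
    intro t
    unfold ch
    rw [← Finset.mul_prod_erase Finset.univ _ (Finset.mem_univ b), cA_line, if_pos rfl]
    congr 1
    refine Finset.prod_congr rfl fun a ha => ?_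
    rw [cA_line, if_neg (Finset.ne_of_mem_erase ha), add_zero]
  have h1 : HasDerivAt (fun t : ℝ => ch e M k (z + t • vA b))
      (fderiv ℝ (ch e M k) z (vA b)) 0 := by
    have hd : HasFDerivAt (ch e M k) (fderiv ℝ (ch e M k) z) z :=
      ((ch_smooth e M k).differentiable (by simp) z).hasFDerivAt
    have hl : HasDerivAt (fun t : ℝ => z + t • vA b) (vA b) 0 := by
      have := ((hasDerivAt_id (0 : ℝ)).smul_const (vA b : E n)).const_add z
      simpa using this
    have hd' : HasFDerivAt (ch e M k) (fderiv ℝ (ch e M k) z) (z + (0 : ℝ) • vA b) := by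
      simpa using hd
    exact hd'.comp_hasDerivAt 0 hl
  have h2 : HasDerivAt (fun t : ℝ => bt ((cA b z + t) / e + M - (k b : ℕ)) * P)
      (deriv bt ((cA b z + 0) / e + M - (k b : ℕ)) * (1 / e) * P) 0 := by
    have hb : HasDerivAt bt (deriv bt ((cA b z + 0) / e + M - (k b : ℕ)))
        ((cA b z + 0) / e + M - (k b : ℕ)) :=
      (bt_smooth.differentiable (by simp) _).hasDerivAt
    have hi : HasDerivAt (fun t : ℝ => (cA b z + t) / e + M - (k b : ℕ)) (1 / e) 0 :=
      ((((hasDerivAt_id (0 : ℝ)).const_add (cA b z)).div_const e).add_const _).sub_const _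
    exact (hb.comp 0 hi).mul_const P
  have h3 : (fun t : ℝ => ch e M k (z + t • vA b)) =
      fun t : ℝ => bt ((cA b z + t) / e + M - (k b : ℕ)) * P := funext hline
  rw [h3] at h1
  rw [h1.unique h2, abs_mul, abs_mul]
  have hP0 : 0 ≤ P := Finset.prod_nonneg fun _ _ => bt_nonneg _
  have hP1 : P ≤ 1 := Finset.prod_le_one (fun _ _ => bt_nonneg _) fun _ _ => bt_le_one _
  rw [abs_of_nonneg hP0, abs_of_pos (by positivity : (0 : ℝ) < 1 / e)]
  have h4 := hB ((cA b z + 0) / e + M - (k b : ℕ))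
  calc _ ≤ B * (1 / e) * 1 := by
        apply mul_le_mul _ hP1 hP0 (by positivity)
        exact mul_le_mul_of_nonneg_right h4 (by positivity)
    _ = B / e := by ring

theorem ch_dbar {n : ℕ} {e B : ℝ} (he : 0 < e) (hB : ∀ x, |deriv bt x| ≤ B) (hB0 : 0 ≤ B)
    (M : ℕ) (k : Fin n × Bool → Fin (2 * M + 1)) (z : E n) (j : Fin n) :
    ‖dbar j (cx (ch e M k)) z‖ ≤ B / e := by
  have hd : DifferentiableAt ℝ (ch e M k) z := (ch_smooth e M k).differentiable (by simp) z
  have h1 := ch_fderiv he hB hB0 M k z (j, false)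
  have h2 := ch_fderiv he hB hB0 M k z (j, true)
  have e1 : (vA (j, false) : E n) = Pi.single j 1 := rfl
  have e2 : (vA (j, true) : E n) = Pi.single j Complex.I := rfl
  rw [e1] at h1
  rw [e2] at h2
  unfold dbar
  rw [fderiv_cx hd, fderiv_cx hd, norm_div]
  have h3 : ‖((fderiv ℝ (ch e M k) z (Pi.single j 1) : ℝ) : ℂ) +
      Complex.I * ((fderiv ℝ (ch e M k) z (Pi.single j Complex.I) : ℝ) : ℂ)‖ ≤
      B / e + B / e := by
    refine (norm_add_le _ _).trans (add_le_add ?_ ?_)
    · rw [Complex.norm_real, Real.norm_eq_abs]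
      exact h1
    · rw [norm_mul, Complex.norm_I, one_mul, Complex.norm_real, Real.norm_eq_abs]
      exact h2
  have h4 : ‖(2 : ℂ)‖ = 2 := by simp
  rw [h4]
  linarith

/-- the number of integers in an interval -/
theorem card_int (M : ℕ) (x L : ℝ) (hL : 0 ≤ L) :
    ((Finset.univ.filter fun m : Fin (2 * M + 1) => |x - (m : ℕ)| < L).card : ℝ) ≤
      2 * L + 1 := by
  have h1 : (Finset.univ.filter fun m : Fin (2 * M + 1) => |x - (m : ℕ)| < L).card ≤
      (Finset.Icc ⌈x - L⌉ ⌊x + L⌋).card := by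
    apply Finset.card_le_card_of_injOn (fun m : Fin (2 * M + 1) => ((m : ℕ) : ℤ))
    · intro m hm
      have hm' := (Finset.mem_filter.mp hm).2
      rw [abs_lt] at hm'
      rw [Finset.mem_coe, Finset.mem_Icc, Int.ceil_le, Int.le_floor]
      push_cast
      constructor <;> linarith
    · intro a _ b _ hab
      have : ((a : ℕ) : ℤ) = ((b : ℕ) : ℤ) := hab
      exact Fin.ext (by exact_mod_cast this)
  rw [Int.card_Icc] at h1
  have h2 : ((Finset.univ.filter fun m : Fin (2 * M + 1) => |x - (m : ℕ)| < L).card : ℝ) ≤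
      ((⌊x + L⌋ + 1 - ⌈x - L⌉).toNat : ℝ) := by exact_mod_cast h1
  refine h2.trans ?_
  by_cases hc : 0 ≤ ⌊x + L⌋ + 1 - ⌈x - L⌉
  · have h3 : (((⌊x + L⌋ + 1 - ⌈x - L⌉).toNat : ℤ) : ℝ) = ((⌊x + L⌋ + 1 - ⌈x - L⌉ : ℤ) : ℝ) := by
      rw [Int.toNat_of_nonneg hc]
    have h4 : ((⌊x + L⌋ + 1 - ⌈x - L⌉).toNat : ℝ) = ((⌊x + L⌋ + 1 - ⌈x - L⌉ : ℤ) : ℝ) := by
      rw [← h3]
      norm_cast
    rw [h4]
    push_cast
    have h5 := Int.floor_le (x + L)
    have h6 := Int.le_ceil (x - L)
    linarith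
  · have h3 : (⌊x + L⌋ + 1 - ⌈x - L⌉).toNat = 0 := Int.toNat_of_nonpos (by omega)
    rw [h3]
    push_cast
    linarith

theorem card_K {n : ℕ} {e : ℝ} (he : 0 < e) (M : ℕ) (z : E n) (L : ℝ) (hL : 0 ≤ L) :
    ((Finset.univ.filter fun k : Fin n × Bool → Fin (2 * M + 1) =>
      nsq (z - pK e M k) < (e * L) ^ 2).card : ℝ) ≤ (2 * L + 1) ^ (2 * n) := by
  classical
  have h1 : (Finset.univ.filter fun k : Fin n × Bool → Fin (2 * M + 1) =>
      nsq (z - pK e M k) < (e * L) ^ 2) ⊆ Fintype.piFinset fun a =>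
        Finset.univ.filter fun m : Fin (2 * M + 1) => |cA a z / e + M - (m : ℕ)| < L := by
    intro k hk
    have hk' := (Finset.mem_filter.mp hk).2
    rw [Fintype.mem_piFinset]
    intro a
    rw [Finset.mem_filter]
    refine ⟨Finset.mem_univ _, ?_⟩
    rw [nsq_eq] at hk'
    have h2 : cA a (z - pK e M k) ^ 2 < (e * L) ^ 2 :=
      lt_of_le_of_lt (Finset.single_le_sum (f := fun a => cA a (z - pK e M k) ^ 2)
        (fun _ _ => sq_nonneg _) (Finset.mem_univ a)) hk'
    have h3 := abs_lt_of_sq_lt_sq h2 (by positivity)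
    rw [cA_sub_pK] at h3
    have h4 : cA a z - e * ((k a : ℕ) - M) = e * (cA a z / e + M - (k a : ℕ)) := by
      field_simp
      ring
    rw [h4, abs_mul, abs_of_pos he] at h3
    exact lt_of_mul_lt_mul_left h3 he.le
  have h2 := Finset.card_le_card h1
  rw [Fintype.card_piFinset] at h2
  have h3 : ((∏ a : Fin n × Bool, (Finset.univ.filter fun m : Fin (2 * M + 1) =>
      |cA a z / e + M - (m : ℕ)| < L).card : ℕ) : ℝ) ≤ ∏ a : Fin n × Bool, (2 * L + 1) := by
    rw [Nat.cast_prod]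
    exact Finset.prod_le_prod (fun _ _ => by positivity) fun a _ => card_int M _ L hL
  calc _ ≤ ((∏ a : Fin n × Bool, (Finset.univ.filter fun m : Fin (2 * M + 1) =>
      |cA a z / e + M - (m : ℕ)| < L).card : ℕ) : ℝ) := by exact_mod_cast h2
    _ ≤ _ := h3
    _ = (2 * L + 1) ^ (2 * n) := by
      rw [Finset.prod_const]
      congr 1
      simp
      ring

/-- POU -/
theorem pou : PouStmt := by
  classical
  intro n hn
  obtain ⟨B, hB0, hB⟩ := bt_deriv_bdd
  have hn0 : (0 : ℝ) < n := by exact_mod_cast hn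
  have hn1 : (1 : ℝ) ≤ n := by exact_mod_cast hn
  refine ⟨1 + 4 * n * B + (2 * (4 * n) + 1) ^ (2 * n), ?_, ?_⟩
  · have h1 : 0 ≤ 4 * n * B := by positivity
    have h2 : (0 : ℝ) ≤ (2 * (4 * n) + 1) ^ (2 * n) := by positivity
    linarith
  intro h hh R
  have he : 0 < h / (4 * n) := by positivity
  set e : ℝ := h / (4 * n) with he'
  set M : ℕ := ⌈R / e⌉₊ with hM
  set eq : (Fin n × Bool → Fin (2 * M + 1)) ≃
    Fin (Fintype.card (Fin n × Bool → Fin (2 * M + 1))) := Fintype.equivFin _ with heq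
  refine ⟨Fintype.card (Fin n × Bool → Fin (2 * M + 1)), fun i => pK e M (eq.symm i),
    fun i => ch e M (eq.symm i), fun i => ch_smooth _ _ _, fun i z => ch_nonneg _ _ _ _,
    fun i z => ch_le_one _ _ _ _, ?_, ?_, ?_, ?_⟩
  · intro z hz
    rw [Equiv.sum_comp eq.symm (fun k => ch e M k z)]
    apply ch_sum he
    exact (div_le_div_of_nonneg_right hz he.le).trans (Nat.le_ceil _)
  · intro i z hz
    have h1 : nsq (z - pK e M (eq.symm i)) ≤ 2 * n * e ^ 2 := ch_supp he M (eq.symm i) hz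
    show nsq (z - pK e M (eq.symm i)) ≤ h ^ 2 / 8
    refine le_trans h1 ?_
    rw [he', div_pow]
    rw [mul_div_assoc', div_le_div_iff₀ (by positivity) (by norm_num)]
    have : (0 : ℝ) ≤ h ^ 2 := sq_nonneg h
    nlinarith [mul_nonneg this hn0.le, mul_le_mul_of_nonneg_left hn1 (mul_nonneg this hn0.le)]
  · intro i j z
    have h1 := ch_dbar he hB hB0 M (eq.symm i) z j
    refine h1.trans ?_
    rw [he', div_div_eq_mul_div]
    apply div_le_div_of_nonneg_right _ hh.le
    have h2 : (0 : ℝ) ≤ (2 * (4 * n) + 1) ^ (2 * n) := by positivity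
    linarith
  · intro z
    have h1 := card_K he M z (4 * n) (by positivity)
    have h2 : e * (4 * n) = h := by
      rw [he']
      field_simp
    rw [h2] at h1
    have h3 : (Finset.univ.filter fun i => nsq (z - pK e M (eq.symm i)) < h ^ 2).card ≤
        (Finset.univ.filter fun k : Fin n × Bool → Fin (2 * M + 1) =>
          nsq (z - pK e M k) < h ^ 2).card := by
      apply Finset.card_le_card_of_injOn eq.symm
      · intro i hi
        have hi' := (Finset.mem_filter.mp hi).2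
        exact Finset.mem_coe.mpr (Finset.mem_filter.mpr ⟨Finset.mem_univ _, hi'⟩)
      · exact eq.symm.injective.injOn
    have h4 : 0 ≤ 4 * n * B := by positivity
    calc _ ≤ _ := (by exact_mod_cast h3 : ((Finset.univ.filter fun i =>
          nsq (z - pK e M (eq.symm i)) < h ^ 2).card : ℝ) ≤
        ((Finset.univ.filter fun k : Fin n × Bool → Fin (2 * M + 1) =>
          nsq (z - pK e M k) < h ^ 2).card : ℝ))
      _ ≤ _ := h1
      _ ≤ _ := by linarith

end Pool.Agent.DK.H4P
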